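import Pool.Agent.V11116.OddCube

/-!
# The odd independence number of even-dimensional hypercubes is asymptotically half the order
-/

set_option autoImplicit false

namespace Pool.Agent.Results.MP_5d7181_co.LimitHalf

open Filter Topology Pool.Agent.V11116.OddCube

/-- As `d` tends to infinity through the even numbers, `α_od(Q_d) / 2 ^ d` tends to `1 / 2`. -/
theorem result : Tendsto (fun d : ℕ => (alphaOd (cube d) : ℝ) / 2 ^ d)
    (atTop ⊓ 𝓟 {d : ℕ | Even d}) (𝓝 (1 / 2)) := by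
  have hup : ∀ d : ℕ, Even d → 0 < d → (alphaOd (cube d) : ℝ) / 2 ^ d ≤ 1 / 2 := by
    intro d hd hd0
    have h := alphaOd_upper hd hd0
    have h2 : 2 * d * alphaOd (cube d) ≤ d * 2 ^ d :=
      h.trans (Nat.mul_le_mul_right _ (Nat.sub_le _ _))
    have h3 : 2 * alphaOd (cube d) ≤ 2 ^ d := by
      refine le_of_mul_le_mul_left ?_ hd0
      calc d * (2 * alphaOd (cube d)) = 2 * d * alphaOd (cube d) := by ring
        _ ≤ d * 2 ^ d := h2
    have h4 : 2 * (alphaOd (cube d) : ℝ) ≤ 2 ^ d := by exact_mod_cast h3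
    rw [div_le_iff₀ (by positivity)]
    linarith
  have hlow : ∀ k d : ℕ, Even d → 1 ≤ k → 2 ^ k ≤ d →
      1 / 2 - 1 / 2 ^ (k + 1) ≤ (alphaOd (cube d) : ℝ) / 2 ^ d := by
    intro k d hd hk hkd
    have h := alphaOd_lower hd hk hkd
    have hd0 : 0 < d := lt_of_lt_of_le (by positivity) hkd
    have h1 : ((2 : ℝ) ^ k - 1) * 2 ^ (d - 1) ≤ 2 ^ k * (alphaOd (cube d) : ℝ) := by
      have : (((2 ^ k - 1) * 2 ^ (d - 1) : ℕ) : ℝ) ≤ ((2 ^ k * alphaOd (cube d) : ℕ) : ℝ) := by
        exact_mod_cast h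
      rw [Nat.cast_mul, Nat.cast_sub Nat.one_le_two_pow] at this
      push_cast at this
      exact this
    have h2 : (2 : ℝ) ^ d = 2 * 2 ^ (d - 1) := by
      rw [← pow_succ']
      congr 1
      omega
    rw [le_div_iff₀ (by positivity), h2, pow_succ]
    have h3 : (0 : ℝ) < 2 ^ k := by positivity
    have h4 : (1 / 2 - 1 / (2 ^ k * 2)) * (2 * (2 : ℝ) ^ (d - 1)) =
        ((2 : ℝ) ^ k - 1) * 2 ^ (d - 1) / 2 ^ k := by
      field_simp
    rw [h4, div_le_iff₀ h3]
    linarith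
  rw [Metric.tendsto_nhds]
  intro ε hε
  obtain ⟨k, hk⟩ := exists_pow_lt_of_lt_one hε (by norm_num : (1 / 2 : ℝ) < 1)
  rw [eventually_inf_principal]
  filter_upwards [eventually_ge_atTop (2 ^ (k + 1))] with d hd heven
  have heven' : Even d := heven
  have h1 := hup d heven' (lt_of_lt_of_le (by positivity) hd)
  have h2 := hlow (k + 1) d heven' (by omega) hd
  have h3 : (1 : ℝ) / 2 ^ (k + 1 + 1) ≤ (1 / 2) ^ k := by
    rw [div_pow, one_pow]
    refine one_div_le_one_div_of_le (by positivity) ?_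
    exact pow_le_pow_right₀ (by norm_num) (by omega)
  rw [Real.dist_eq, abs_lt]
  constructor <;> linarith

end Pool.Agent.Results.MP_5d7181_co.LimitHalf
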