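import Pool.Agent.V11116.OddCube

/-!
# Bounds for the odd independence number of even-dimensional hypercubes, exact for powers of two
-/

set_option autoImplicit false

namespace Pool.Agent.Results.MP_5d7181_co.PowersOfTwo

open Pool.Agent.V11116.OddCube

/-- For every even `d ≥ 2`, writing `k` for the integer part of the binary logarithm of `d`,
`(1 - 2 ^ (-k)) 2 ^ (d - 1) ≤ α_od(Q_d) ≤ (1 - 1 / d) 2 ^ (d - 1)`; the two bounds agree, and give
the exact value, when `d` is a power of two. -/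
theorem result :
    (∀ d : ℕ, Even d → 2 ≤ d →
      (1 - 1 / 2 ^ Nat.log 2 d) * 2 ^ (d - 1) ≤ (alphaOd (cube d) : ℝ) ∧
      (alphaOd (cube d) : ℝ) ≤ (1 - 1 / d) * 2 ^ (d - 1)) ∧
    (∀ k : ℕ, 1 ≤ k → (alphaOd (cube (2 ^ k)) : ℝ) = (1 - 1 / 2 ^ k) * 2 ^ (2 ^ k - 1)) := by
  have hmain : ∀ d : ℕ, Even d → 2 ≤ d →
      (1 - 1 / 2 ^ Nat.log 2 d) * 2 ^ (d - 1) ≤ (alphaOd (cube d) : ℝ) ∧
      (alphaOd (cube d) : ℝ) ≤ (1 - 1 / d) * 2 ^ (d - 1) := by
    intro d hd hd2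
    constructor
    · have h := alphaOd_lower (k := Nat.log 2 d) hd (Nat.log_pos (by norm_num) hd2)
        (Nat.pow_log_le_self 2 (by omega))
      have h1 : ((2 : ℝ) ^ Nat.log 2 d - 1) * 2 ^ (d - 1) ≤
          2 ^ Nat.log 2 d * (alphaOd (cube d) : ℝ) := by
        have : (((2 ^ Nat.log 2 d - 1) * 2 ^ (d - 1) : ℕ) : ℝ) ≤
            ((2 ^ Nat.log 2 d * alphaOd (cube d) : ℕ) : ℝ) := by exact_mod_cast h
        rw [Nat.cast_mul, Nat.cast_sub Nat.one_le_two_pow] at this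
        push_cast at this
        exact this
      have h3 : (0 : ℝ) < 2 ^ Nat.log 2 d := by positivity
      have h4 : (1 - 1 / (2 : ℝ) ^ Nat.log 2 d) * 2 ^ (d - 1) =
          ((2 : ℝ) ^ Nat.log 2 d - 1) * 2 ^ (d - 1) / 2 ^ Nat.log 2 d := by
        field_simp
      rw [h4, div_le_iff₀ h3]
      linarith
    · have h := alphaOd_upper hd (by omega)
      have h0 : (0 : ℝ) < d := by exact_mod_cast (by omega : 0 < d)
      have h2 : (2 : ℝ) ^ d = 2 * 2 ^ (d - 1) := by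
        rw [← pow_succ']
        congr 1
        omega
      have h1 : 2 * (d : ℝ) * alphaOd (cube d) ≤ (d - 1) * 2 ^ d := by
        have : ((2 * d * alphaOd (cube d) : ℕ) : ℝ) ≤ (((d - 1) * 2 ^ d : ℕ) : ℝ) := by
          exact_mod_cast h
        rw [Nat.cast_mul (d - 1), Nat.cast_sub (by omega)] at this
        push_cast at this
        exact this
      have h4 : (1 - 1 / (d : ℝ)) * 2 ^ (d - 1) = (d - 1) * 2 ^ (d - 1) / d := by
        field_simp
      rw [h4, le_div_iff₀ h0]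
      rw [h2] at h1
      linarith
  refine ⟨hmain, fun k hk => ?_⟩
  have heven : Even (2 ^ k) := Nat.even_pow.2 ⟨even_two, by omega⟩
  have h2 : 2 ≤ 2 ^ k := by
    calc 2 = 2 ^ 1 := rfl
      _ ≤ 2 ^ k := Nat.pow_le_pow_right (by norm_num) hk
  obtain ⟨h3, h4⟩ := hmain (2 ^ k) heven h2
  rw [Nat.log_pow (by norm_num)] at h3
  push_cast at h4
  exact le_antisymm h4 h3

end Pool.Agent.Results.MP_5d7181_co.PowersOfTwo
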